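import Mathlib

/-!
Infinite time Turing machines, halting times, semidecidable sets of reals and their
semidecision times.
-/

set_option autoImplicit false

open Ordinal

namespace Pool.Agent.H76.ITTM

/-- A program: a finite set of states `0, …, n` (the initial state is `0`) and a transition table.
Given the state and the three symbols under the head (on the input, work and output tape),
the table is either undefined (the machine halts) or gives the new state, the three symbols to be
written and the direction of the head movement (`true` is right, `false` is left). -/
structure Program where
  /-- the largest state -/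
  n : ℕ
  /-- the transition table -/
  trans : Fin (n + 1) → (Fin 3 → Bool) → Option (Fin (n + 1) × (Fin 3 → Bool) × Bool)

/-- A configuration: the state, the head position and the contents of the three tapes. -/
structure Config (p : Program) where
  /-- the state -/
  state : Fin (p.n + 1)
  /-- the head position -/
  head : ℕ
  /-- the contents of the cells of the three tapes -/
  cell : Fin 3 → ℕ → Bool

variable (p : Program)

/-- The initial configuration on input `x`: state `0`, head on cell `0`, `x` on the input tape
(number `0`), the other tapes are filled with zeros. -/
def init (x : ℕ → Bool) : Config p := ⟨0, 0, fun i k => if i = 0 then x k else false⟩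

variable {p}

/-- The symbols under the head. -/
def Config.read (c : Config p) : Fin 3 → Bool := fun i => c.cell i c.head

/-- The table is undefined: the machine has halted. -/
def Config.Halted (c : Config p) : Prop := p.trans c.state c.read = none

/-- A successor step. A halted configuration does not change; a head on cell `0` does not move
to the left. -/
def Config.step (c : Config p) : Config p :=
  match p.trans c.state c.read with
  | none => c
  | some (q, w, right) =>
    ⟨q, if right then c.head + 1 else c.head - 1,
      fun i => Function.update (c.cell i) c.head (w i)⟩

/-- The lower limit of natural numbers `f γ`, `γ < μ`: the supremum of the `s` such that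
`s ≤ f γ` for all `γ` from some stage on (and zero if this set is unbounded). -/
noncomputable def limInf (μ : Ordinal.{0}) (f : ∀ γ < μ, ℕ) : ℕ :=
  sSup {s | ∃ β < μ, ∀ γ, ∀ h : γ < μ, β ≤ γ → s ≤ f γ h}

lemma limInf_le {μ : Ordinal.{0}} (f : ∀ γ < μ, ℕ) (n : ℕ) (hf : ∀ γ h, f γ h ≤ n) :
    limInf μ f ≤ n := by
  refine csSup_le' ?_
  rintro s ⟨β, hβ, h⟩
  exact (h β hβ le_rfl).trans (hf β hβ)

/-- The configuration at a limit stage: the state, the head position and every cell are the lower
limits of their earlier values. -/
noncomputable def limit (μ : Ordinal.{0}) (c : ∀ γ < μ, Config p) : Config p where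
  state := ⟨limInf μ fun γ h => (c γ h).state,
    Nat.lt_succ_of_le (limInf_le _ _ fun γ h => Nat.le_of_lt_succ (c γ h).state.2)⟩
  head := limInf μ fun γ h => (c γ h).head
  cell := fun i k => decide (limInf μ (fun γ h => ((c γ h).cell i k).toNat) = 1)

/-- The configuration of `p` on input `x` at stage `α`. -/
noncomputable def run (p : Program) (x : ℕ → Bool) (α : Ordinal.{0}) : Config p :=
  Ordinal.limitRecOn α (init p x) (fun _ c => c.step) (fun μ _ c => limit μ c)

/-- `p` on input `x` has halted by stage `α`. -/
def HaltsBy (p : Program) (x : ℕ → Bool) (α : Ordinal.{0}) : Prop :=
  (run p x α).Halted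

/-- `p` on input `x` halts. -/
def Halts (p : Program) (x : ℕ → Bool) : Prop := ∃ α, HaltsBy p x α

/-- The halting time of `p` on input `x`: the least stage at which it has halted. -/
noncomputable def haltingTime (p : Program) (x : ℕ → Bool) : Ordinal.{0} :=
  sInf {α | HaltsBy p x α}

/-- `p` semidecides the set of reals `A`. -/
def Semidecides (p : Program) (A : Set (ℕ → Bool)) : Prop := ∀ x, Halts p x ↔ x ∈ A

/-- A set of reals is semidecidable if some program semidecides it. -/
def Semidecidable (A : Set (ℕ → Bool)) : Prop := ∃ p, Semidecides p A

/-- The supremum of the halting times of `p` on the members of `A`. -/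
noncomputable def programTime (p : Program) (A : Set (ℕ → Bool)) : Ordinal.{0} :=
  ⨆ x : A, haltingTime p x

/-- The semidecision time of `A`: the least semidecision time of a program that semidecides
`A`. -/
noncomputable def semidecisionTime (A : Set (ℕ → Bool)) : Ordinal.{0} :=
  sInf {t | ∃ p, Semidecides p A ∧ t = programTime p A}

/-- A set of reals is thin if it has no uncountable closed subset. -/
def Thin (A : Set (ℕ → Bool)) : Prop := ∀ C ⊆ A, IsClosed C → C.Countable

end Pool.Agent.H76.ITTM
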