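import Mathlib
import Pool.Agent.H76.ITTM.Defs

/-!
Basic properties of runs, and the theorem of Hamkins and Lewis that halting times are countable.
-/

set_option autoImplicit false

open Ordinal Order Set

namespace Pool.Agent.H76.ITTM

variable {p : Program}

/-! ### Lower limits -/

lemma limInf_eq {μ : Ordinal.{0}} (f : ∀ γ < μ, ℕ) (v : ℕ)
    (h1 : ∃ β < μ, ∀ γ, ∀ h : γ < μ, β ≤ γ → v ≤ f γ h)
    (h2 : ∀ β < μ, ∃ γ, ∃ h : γ < μ, β ≤ γ ∧ f γ h ≤ v) : limInf μ f = v := by
  refine IsGreatest.csSup_eq ⟨h1, ?_⟩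
  rintro s ⟨β, hβ, hs⟩
  obtain ⟨γ, hγ, h3, h4⟩ := h2 β hβ
  exact (hs γ hγ h3).trans h4

lemma limInf_spec {μ : Ordinal.{0}} (hμ : 0 < μ) (f : ∀ γ < μ, ℕ) (n : ℕ)
    (hn : ∀ β < μ, ∃ γ, ∃ h : γ < μ, β ≤ γ ∧ f γ h ≤ n) :
    (∃ β < μ, ∀ γ, ∀ h : γ < μ, β ≤ γ → limInf μ f ≤ f γ h) ∧
      ∀ β < μ, ∃ γ, ∃ h : γ < μ, β ≤ γ ∧ f γ h ≤ limInf μ f := by
  set S : Set ℕ := {s | ∃ β < μ, ∀ γ, ∀ h : γ < μ, β ≤ γ → s ≤ f γ h} with hS
  have hbdd : BddAbove S := by
    refine ⟨n, ?_⟩
    rintro s ⟨β, hβ, hs⟩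
    obtain ⟨γ, hγ, h3, h4⟩ := hn β hβ
    exact (hs γ hγ h3).trans h4
  have hne : S.Nonempty := ⟨0, 0, hμ, fun _ _ _ => Nat.zero_le _⟩
  have hmem : limInf μ f ∈ S := Nat.sSup_mem hne hbdd
  refine ⟨hmem, ?_⟩
  intro β hβ
  by_contra hcon
  push Not at hcon
  have : limInf μ f + 1 ∈ S := ⟨β, hβ, fun γ hγ hβγ => hcon γ hγ hβγ⟩
  have := le_csSup hbdd this
  have h' : limInf μ f = sSup S := rfl
  omega

/-! ### Coordinates of configurations -/

/-- The coordinates of a configuration, as natural numbers. -/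
def Config.co (c : Config p) : Option (Option (Fin 3 × ℕ)) → ℕ
  | none => c.state
  | some none => c.head
  | some (some (i, k)) => (c.cell i k).toNat

lemma co_injective : Function.Injective (Config.co (p := p)) := by
  intro c c' h
  obtain ⟨s, hd, cl⟩ := c
  obtain ⟨s', hd', cl'⟩ := c'
  have h1 : s = s' := Fin.ext (congrFun h none)
  have h2 : hd = hd' := congrFun h (some none)
  have h3 : cl = cl' := by
    funext i k
    have h4 : (cl i k).toNat = (cl' i k).toNat := congrFun h (some (some (i, k)))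
    revert h4
    cases cl i k <;> cases cl' i k <;> simp
  rw [h1, h2, h3]

lemma co_limit {μ : Ordinal.{0}} (c : ∀ γ < μ, Config p) (k : Option (Option (Fin 3 × ℕ))) :
    (limit μ c).co k = limInf μ fun γ h => (c γ h).co k := by
  rcases k with _ | _ | ⟨i, k⟩
  · rfl
  · rfl
  · show (decide (limInf μ (fun γ h => ((c γ h).cell i k).toNat) = 1)).toNat =
      limInf μ fun γ h => ((c γ h).cell i k).toNat
    have h1 : limInf μ (fun γ h => ((c γ h).cell i k).toNat) ≤ 1 :=
      limInf_le _ _ fun γ h => Bool.toNat_le _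
    by_cases h2 : limInf μ (fun γ h => ((c γ h).cell i k).toNat) = 1
    · simp [h2]
    · have h3 : limInf μ (fun γ h => ((c γ h).cell i k).toNat) = 0 := by omega
      simp [h3]

/-! ### Runs -/

lemma run_zero (p : Program) (x : ℕ → Bool) : run p x 0 = init p x := by
  unfold run
  rw [Ordinal.limitRecOn_zero]

lemma run_succ (p : Program) (x : ℕ → Bool) (α : Ordinal.{0}) :
    run p x (α + 1) = (run p x α).step := by
  unfold run
  rw [Ordinal.limitRecOn_add_one]

lemma run_limit (p : Program) (x : ℕ → Bool) {μ : Ordinal.{0}} (hμ : IsSuccLimit μ) :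
    run p x μ = limit μ fun γ _ => run p x γ := by
  unfold run
  rw [Ordinal.limitRecOn_limit _ _ _ _ hμ]

lemma co_run_limit (p : Program) (x : ℕ → Bool) {μ : Ordinal.{0}} (hμ : IsSuccLimit μ)
    (k : Option (Option (Fin 3 × ℕ))) :
    (run p x μ).co k = limInf μ fun γ _ => (run p x γ).co k := by
  rw [run_limit p x hμ, co_limit]

lemma step_of_halted {c : Config p} (h : c.Halted) : c.step = c := by
  unfold Config.Halted at h
  unfold Config.step
  rw [h]

/-- A halted machine does not change its configuration. -/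
lemma run_eq_of_halted {x : ℕ → Bool} {α : Ordinal.{0}} (h : (run p x α).Halted) :
    ∀ β, α ≤ β → run p x β = run p x α := by
  intro β
  induction β using Ordinal.limitRecOn with
  | zero =>
    intro hαβ
    rw [nonpos_iff_eq_zero.1 hαβ]
  | add_one β ih =>
    intro hαβ
    rcases hαβ.eq_or_lt with rfl | hlt
    · rfl
    · have h1 := ih (Order.lt_add_one_iff.1 hlt)
      rw [run_succ, h1, step_of_halted h]
  | limit μ hμ ih =>
    intro hαμ
    rcases hαμ.eq_or_lt with rfl | hlt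
    · rfl
    · apply co_injective
      funext k
      rw [co_run_limit p x hμ]
      refine limInf_eq _ _ ⟨α, hlt, fun γ hγ hαγ => ?_⟩ fun β hβ => ?_
      · rw [ih γ hγ hαγ]
      · refine ⟨max α β, max_lt hlt hβ, le_max_right _ _, ?_⟩
        rw [ih _ (max_lt hlt hβ) (le_max_left _ _)]

lemma haltsBy_mono {x : ℕ → Bool} {α β : Ordinal.{0}} (hαβ : α ≤ β) (h : HaltsBy p x α) :
    HaltsBy p x β := by
  unfold HaltsBy at h ⊢
  rw [run_eq_of_halted h β hαβ]
  exact h

/-- The behaviour after a stage depends only on the configuration at that stage. -/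
lemma run_add_eq {x : ℕ → Bool} {a b : Ordinal.{0}} (h : run p x a = run p x b) :
    ∀ β, run p x (a + β) = run p x (b + β) := by
  intro β
  induction β using Ordinal.limitRecOn with
  | zero => simpa using h
  | add_one β ih => rw [← add_assoc, ← add_assoc, run_succ, run_succ, ih]
  | limit μ hμ ih =>
    have key : ∀ a : Ordinal.{0}, ∀ k, (run p x (a + μ)).co k =
        sSup {s | ∃ β < μ, ∀ γ < μ, β ≤ γ → s ≤ (run p x (a + γ)).co k} := by
      intro a k
      rw [co_run_limit p x (Ordinal.isSuccLimit_add a hμ)]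
      unfold limInf
      congr 1
      ext s
      constructor
      · rintro ⟨β, hβ, hs⟩
        refine ⟨β - a, ?_, fun γ hγ hβγ => ?_⟩
        · exact Ordinal.sub_lt_of_lt_add hβ hμ.bot_lt
        · exact hs (a + γ) (by gcongr) (Ordinal.sub_le.1 hβγ)
      · rintro ⟨β, hβ, hs⟩
        refine ⟨a + β, by gcongr, fun γ hγ hβγ => ?_⟩
        have h1 : a ≤ γ := le_self_add.trans hβγ
        have h2 : a + (γ - a) = γ := Ordinal.add_sub_cancel_of_le h1
        have h3 := hs (γ - a) (by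
          rw [← h2] at hγ
          exact (add_lt_add_iff_left a).1 hγ) (by
          rw [← h2] at hβγ
          exact (add_le_add_iff_left a).1 hβγ)
        rwa [h2] at h3
    apply co_injective
    funext k
    rw [key, key]
    congr 1
    ext s
    constructor
    · rintro ⟨β, hβ, hs⟩
      refine ⟨β, hβ, fun γ hγ hβγ => ?_⟩
      rw [← ih γ hγ]
      exact hs γ hγ hβγ
    · rintro ⟨β, hβ, hs⟩
      refine ⟨β, hβ, fun γ hγ hβγ => ?_⟩
      rw [ih γ hγ]
      exact hs γ hγ hβγ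

/-! ### Halting times are countable -/

/-- If the machine has not halted at a countable stage, then it never halts. -/
theorem not_halted_of_countable {x : ℕ → Bool} (hno : ∀ α < ω₁, ¬ (run p x α).Halted) :
    ∀ α, ¬ (run p x α).Halted := by
  have hω1 : (0 : Ordinal.{0}) < ω₁ := (Cardinal.isSuccLimit_omega 1).bot_lt
  have hω1' : (ω₁ : Ordinal.{0}) ≠ 0 := hω1.ne'
  have hlim : IsSuccLimit (ω₁ : Ordinal.{0}) := Cardinal.isSuccLimit_omega 1
  have hsup : ∀ {ι : Type} [Countable ι] (f : ι → Ordinal.{0}), (∀ i, f i < ω₁) →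
      ⨆ i, f i < ω₁ := fun f hf => Ordinal.iSup_lt_omega_one hf
  have hle : ∀ {ι : Type} (f : ι → Ordinal.{0}) (i : ι), f i ≤ ⨆ i, f i := fun f i =>
    Ordinal.le_iSup f i
  set v := (run p x ω₁).co with hv
  -- the values at the first uncountable stage are reached from above
  have hspec : ∀ k, (∃ β < (ω₁ : Ordinal.{0}), ∀ γ, ∀ _ : γ < ω₁, β ≤ γ →
      v k ≤ (run p x γ).co k) ∧
      ∀ β < (ω₁ : Ordinal.{0}), ∃ γ, ∃ _ : γ < ω₁, β ≤ γ ∧ (run p x γ).co k ≤ v k := by
    intro k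
    have hb : ∃ n, ∀ β < (ω₁ : Ordinal.{0}), ∃ γ, ∃ _ : γ < ω₁, β ≤ γ ∧
        (run p x γ).co k ≤ n := by
      by_contra hcon
      push Not at hcon
      choose b hb1 hb2 using hcon
      have h1 := hsup b hb1
      exact lt_irrefl _ (hb2 ((run p x (⨆ i, b i)).co k) (⨆ i, b i) h1 (hle b _))
    obtain ⟨n, hn⟩ := hb
    have := limInf_spec hω1 (fun γ _ => (run p x γ).co k) n hn
    rw [← co_run_limit p x hlim] at this
    exact this
  choose δ' hδ1 hδ2 using fun k => (hspec k).1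
  have hreach := fun k => (hspec k).2
  set δ := ⨆ k, δ' k with hδ
  have hδω : δ < ω₁ := hsup δ' hδ1
  have hge : ∀ k γ, δ ≤ γ → γ < ω₁ → v k ≤ (run p x γ).co k := fun k γ h1 h2 =>
    hδ2 k γ h2 ((hle δ' k).trans h1)
  -- a countable stage with the same configuration
  obtain ⟨μ, hμω, hδμ, hμ⟩ : ∃ μ < (ω₁ : Ordinal.{0}), δ ≤ μ ∧ run p x μ = run p x ω₁ := by
    obtain ⟨e, he⟩ := exists_surjective_nat (Option (Option (Fin 3 × ℕ)))
    have hnext : ∀ (a : {a : Ordinal.{0} // a < ω₁}) (k : Option (Option (Fin 3 × ℕ))),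
        ∃ b : {a : Ordinal.{0} // a < ω₁}, a.1 < b.1 ∧ (run p x b.1).co k ≤ v k := by
      intro a k
      obtain ⟨γ, hγ, h1, h2⟩ := hreach k (a.1 + 1) (hlim.add_one_lt a.2)
      exact ⟨⟨γ, hγ⟩, lt_of_lt_of_le (lt_add_one a.1) h1, h2⟩
    choose nx hnx1 hnx2 using hnext
    let a : ℕ → {a : Ordinal.{0} // a < ω₁} := fun n =>
      Nat.rec ⟨δ, hδω⟩ (fun n a => nx a (e n.unpair.1)) n
    have ha0 : (a 0).1 = δ := rfl
    have hasucc : ∀ n, a (n + 1) = nx (a n) (e n.unpair.1) := fun n => rfl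
    have hmono : StrictMono fun n => (a n).1 := strictMono_nat_of_lt_succ fun n => by
      rw [hasucc]
      exact hnx1 _ _
    set μ := ⨆ n, (a n).1 with hμdef
    have haμ : ∀ n, (a n).1 < μ := fun n =>
      (hmono (Nat.lt_succ_self n)).trans_le (hle (fun n => (a n).1) (n + 1))
    have hμω : μ < ω₁ := hsup _ fun n => (a n).2
    have hltμ : ∀ β < μ, ∃ n, β < (a n).1 := by
      intro β hβ
      by_contra hcon
      push Not at hcon
      exact not_lt.2 (Ordinal.iSup_le hcon) hβ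
    have hμlim : IsSuccLimit μ := by
      rw [isSuccLimit_iff_of_orderBot]
      refine ⟨(lt_of_le_of_lt bot_le (haμ 0)).ne', ?_⟩
      rw [isSuccPrelimit_iff_succ_lt]
      intro β hβ
      obtain ⟨n, hn⟩ := hltμ β hβ
      exact lt_of_le_of_lt (Order.succ_le_of_lt hn) (haμ n)
    refine ⟨μ, hμω, ha0 ▸ (haμ 0).le, ?_⟩
    apply co_injective
    funext k
    rw [co_run_limit p x hμlim, ← hv]
    refine limInf_eq _ _ ⟨δ, ha0 ▸ haμ 0, fun γ hγ hδγ => ?_⟩ fun β hβ => ?_
    · exact hge k γ hδγ (hγ.trans hμω)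
    · obtain ⟨n₀, hn₀⟩ := hltμ β hβ
      obtain ⟨i, hi⟩ := he k
      refine ⟨(a (Nat.pair i n₀ + 1)).1, haμ (Nat.pair i n₀ + 1), ?_, ?_⟩
      · exact hn₀.le.trans (hmono.monotone ((Nat.right_le_pair i n₀).trans (Nat.le_succ _)))
      · rw [hasucc, Nat.unpair_pair]
        simp only
        rw [hi]
        exact hnx2 _ _
  have hμadd : μ + ω₁ = ω₁ := (isPrincipal_add_omega 1).add_eq_right hμω
  -- the configuration recurs at all multiples of the first uncountable ordinal
  have hblock : ∀ ξ, 1 ≤ ξ → run p x (ω₁ * ξ) = run p x ω₁ := by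
    intro ξ
    induction ξ using Ordinal.limitRecOn with
    | zero => intro h; exact absurd h (by simp)
    | add_one ξ ih =>
      intro _
      rcases eq_or_ne ξ 0 with rfl | hξ
      · simp
      · have h1 := ih (Order.one_le_iff_pos.2 (pos_iff_ne_zero.2 hξ))
        rw [mul_add, mul_one, run_add_eq (h1.trans hμ.symm) ω₁, hμadd]
    | limit ξ hξ ih =>
      intro h1ξ
      have hlim' : IsSuccLimit (ω₁ * ξ) := isSuccLimit_mul_right hω1 hξ
      have hlt : ω₁ < ω₁ * ξ := by
        have h1 : (1 : Ordinal.{0}) < ξ := by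
          have := hξ.add_one_lt hξ.bot_lt
          simpa using this
        calc (ω₁ : Ordinal.{0}) = ω₁ * 1 := (mul_one _).symm
          _ < ω₁ * ξ := (mul_lt_mul_iff_right₀ hω1).2 h1
      apply co_injective
      funext k
      rw [co_run_limit p x hlim', ← hv]
      refine limInf_eq _ _ ⟨ω₁, hlt, fun γ hγ hωγ => ?_⟩ fun β hβ => ?_
      · have h1 := Ordinal.div_add_mod γ ω₁
        have h2 : γ / ω₁ < ξ := (Ordinal.lt_mul_iff_div_lt hω1').1 hγ
        have h3 : 1 ≤ γ / ω₁ := Order.one_le_iff_pos.2 ((Ordinal.div_pos hω1').2 hωγ)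
        have h4 : γ % ω₁ < ω₁ := Ordinal.mod_lt γ hω1'
        rw [← h1, run_add_eq ((ih _ h2 h3).trans hμ.symm)]
        exact hge k _ (hδμ.trans le_self_add) ((isPrincipal_add_omega 1) hμω h4)
      · refine ⟨ω₁ * (β / ω₁ + 1), ?_, ?_, ?_⟩
        · refine (mul_lt_mul_iff_right₀ hω1).2 (hξ.add_one_lt ((Ordinal.lt_mul_iff_div_lt hω1').1 hβ))
        · exact (Ordinal.lt_mul_succ_div β hω1').le
        · rw [ih _ (hξ.add_one_lt ((Ordinal.lt_mul_iff_div_lt hω1').1 hβ)) le_add_self]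
  intro α
  rcases lt_or_ge α ω₁ with h | h
  · exact hno α h
  · have h1 := Ordinal.div_add_mod α ω₁
    have h3 : 1 ≤ α / ω₁ := Order.one_le_iff_pos.2 ((Ordinal.div_pos hω1').2 h)
    have h4 : α % ω₁ < ω₁ := Ordinal.mod_lt α hω1'
    rw [← h1, run_add_eq ((hblock _ h3).trans hμ.symm)]
    exact hno _ ((isPrincipal_add_omega 1) hμω h4)

/-- Hamkins and Lewis: halting times are countable. -/
theorem haltingTime_lt {x : ℕ → Bool} (h : Halts p x) : haltingTime p x < ω₁ := by
  by_contra hcon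
  have hno : ∀ α < ω₁, ¬ (run p x α).Halted := by
    intro α hα hh
    exact hcon (lt_of_le_of_lt (csInf_le' hh) hα)
  obtain ⟨α, hα⟩ := h
  exact not_halted_of_countable hno α hα

lemma haltsBy_haltingTime {x : ℕ → Bool} (h : Halts p x) : HaltsBy p x (haltingTime p x) :=
  csInf_mem (s := {α | HaltsBy p x α}) h

end Pool.Agent.H76.ITTM
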