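import Mathlib
import Pool.Agent.H76.ITTM.Defs
import Pool.Agent.H76.ITTM.Loop

/-!
The set of the reals on which a program halts by a given countable stage is Borel; Borel subsets of
thin sets are countable.
-/

set_option autoImplicit false

open Ordinal Order Set

namespace Pool.Agent.H76.ITTM

variable {p : Program}

lemma countable_Iio_of_lt {μ : Ordinal.{0}} (hμ : μ < ω₁) : (Set.Iio μ).Countable := by
  rw [← Cardinal.le_aleph0_iff_set_countable, Cardinal.mk_Iio_ordinal, Cardinal.lift_le_aleph0]
  have h1 : μ.card < Cardinal.aleph 1 := Cardinal.lt_ord.1 (by rwa [Cardinal.ord_aleph])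
  rw [← Order.lt_succ_iff, Cardinal.succ_aleph0]
  exact h1

/-- The supremum of a measurable family of sets of natural numbers is measurable. -/
lemma measurable_sSup_nat {X : Type*} [MeasurableSpace X] (P : ℕ → X → Prop)
    (hP : ∀ s, MeasurableSet {x | P s x}) : Measurable fun x => sSup {s | P s x} := by
  have key : ∀ v, 1 ≤ v → MeasurableSet {x | sSup {s | P s x} = v} := by
    intro v hv
    have h1 : {x | sSup {s | P s x} = v} = {x | P v x} ∩ ⋂ s ∈ Set.Ioi v, {x | P s x}ᶜ := by
      ext x
      simp only [Set.mem_ofPred_eq, Set.mem_inter_iff, Set.mem_iInter, Set.mem_compl_iff,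
        Set.mem_Ioi]
      constructor
      · intro h
        have hne : {s | P s x}.Nonempty := by
          rw [Set.nonempty_iff_ne_empty]
          intro h0
          rw [h0] at h
          simp at h
          omega
        have hb : BddAbove {s | P s x} := by
          by_contra h0
          rw [Nat.sSup_of_not_bddAbove h0] at h
          omega
        refine ⟨?_, fun s hs hPs => ?_⟩
        · have := Nat.sSup_mem hne hb
          rw [h] at this
          exact this
        · have := le_csSup hb (show s ∈ {s | P s x} from hPs)
          omega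
      · rintro ⟨h1, h2⟩
        refine IsGreatest.csSup_eq ⟨h1, ?_⟩
        intro s hs
        by_contra h3
        exact h2 s (not_le.1 h3) hs
    rw [h1]
    exact (hP v).inter (MeasurableSet.biInter (Set.to_countable _) fun s _ => (hP s).compl)
  refine measurable_to_countable' fun v => ?_
  rcases Nat.eq_zero_or_pos v with rfl | hv
  · have h1 : (fun x => sSup {s | P s x}) ⁻¹' {0} = (⋃ v ∈ Set.Ici 1, {x | sSup {s | P s x} = v})ᶜ := by
      ext x
      simp only [Set.mem_preimage, Set.mem_singleton_iff, Set.mem_compl_iff, Set.mem_iUnion,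
        Set.mem_Ici, Set.mem_ofPred_eq, not_exists]
      constructor
      · intro h v hv h2
        omega
      · intro h
        by_contra h2
        exact h _ (Nat.one_le_iff_ne_zero.2 h2) rfl
    rw [h1]
    exact (MeasurableSet.biUnion (Set.to_countable _) fun v hv => key v hv).compl
  · exact key v hv

lemma measurable_limInf {X : Type*} [MeasurableSpace X] {μ : Ordinal.{0}} (hμ : μ < ω₁)
    (f : X → ∀ γ < μ, ℕ) (hf : ∀ γ h, Measurable fun x => f x γ h) :
    Measurable fun x => limInf μ (f x) := by
  have hc := countable_Iio_of_lt hμ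
  refine measurable_sSup_nat (fun s x => ∃ β < μ, ∀ γ, ∀ h : γ < μ, β ≤ γ → s ≤ f x γ h) ?_
  intro s
  have h1 : {x | ∃ β < μ, ∀ γ, ∀ h : γ < μ, β ≤ γ → s ≤ f x γ h} =
      ⋃ β ∈ Set.Iio μ, ⋂ γ : Set.Iio μ, {x | β ≤ γ.1 → s ≤ f x γ.1 γ.2} := by
    ext x
    simp only [Set.mem_ofPred_eq, Set.mem_iUnion, Set.mem_iInter, Set.mem_Iio, exists_prop,
      Subtype.forall]
  rw [h1]
  have : Countable (Set.Iio μ) := hc.to_subtype
  refine MeasurableSet.biUnion hc fun β _ => MeasurableSet.iInter fun γ => ?_
  by_cases h2 : β ≤ γ.1
  · have h3 : {x | β ≤ γ.1 → s ≤ f x γ.1 γ.2} = (fun x => f x γ.1 γ.2) ⁻¹' Set.Ici s := by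
      ext x
      simp [h2]
    rw [h3]
    exact hf γ.1 γ.2 (Set.to_countable _).measurableSet
  · have h3 : {x | β ≤ γ.1 → s ≤ f x γ.1 γ.2} = Set.univ := by
      ext x
      simp [h2]
    rw [h3]
    exact MeasurableSet.univ

/-- A configuration that depends measurably on a real. -/
def Meas (c : (ℕ → Bool) → Config p) : Prop :=
  ∀ k, Measurable fun x => (c x).co k

lemma Meas.state {c : (ℕ → Bool) → Config p} (hc : Meas c) :
    Measurable fun x => (c x).state := by
  refine measurable_to_countable' fun q => ?_
  have h : (fun x => (c x).state) ⁻¹' {q} = (fun x => (c x).co none) ⁻¹' {(q : ℕ)} := by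
    ext x
    simp only [Set.mem_preimage, Set.mem_singleton_iff]
    exact Fin.ext_iff
  rw [h]
  exact hc none (measurableSet_singleton _)

lemma Meas.head {c : (ℕ → Bool) → Config p} (hc : Meas c) :
    Measurable fun x => (c x).head := hc (some none)

lemma Meas.cell {c : (ℕ → Bool) → Config p} (hc : Meas c) (i : Fin 3) (k : ℕ) :
    Measurable fun x => (c x).cell i k := by
  refine measurable_to_countable' fun b => ?_
  have h : (fun x => (c x).cell i k) ⁻¹' {b} =
      (fun x => (c x).co (some (some (i, k)))) ⁻¹' {b.toNat} := by
    ext x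
    simp only [Set.mem_preimage, Set.mem_singleton_iff, Config.co]
    cases (c x).cell i k <;> cases b <;> simp
  rw [h]
  exact hc _ (measurableSet_singleton _)

lemma Meas.of {c : (ℕ → Bool) → Config p} (h1 : Measurable fun x => (c x).state)
    (h2 : Measurable fun x => (c x).head) (h3 : ∀ i k, Measurable fun x => (c x).cell i k) :
    Meas c := by
  intro k
  rcases k with _ | _ | ⟨i, k⟩
  · exact (Measurable.of_discrete (f := fun q : Fin (p.n + 1) => (q : ℕ))).comp h1
  · exact h2
  · exact (Measurable.of_discrete (f := Bool.toNat)).comp (h3 i k)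

lemma Meas.read {c : (ℕ → Bool) → Config p} (hc : Meas c) (i : Fin 3) :
    Measurable fun x => (c x).read i := by
  refine measurable_to_countable' fun b => ?_
  have h : (fun x => (c x).read i) ⁻¹' {b} =
      ⋃ k : ℕ, ((fun x => (c x).head) ⁻¹' {k} ∩ (fun x => (c x).cell i k) ⁻¹' {b}) := by
    ext x
    simp only [Set.mem_preimage, Set.mem_singleton_iff, Set.mem_iUnion, Set.mem_inter_iff,
      Config.read]
    constructor
    · intro h; exact ⟨_, rfl, h⟩
    · rintro ⟨k, rfl, h⟩; exact h
  rw [h]
  exact MeasurableSet.iUnion fun k => (hc.head (measurableSet_singleton _)).inter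
    (hc.cell i k (measurableSet_singleton _))

/-- The finitely many data that determine the next step. -/
def Config.data (c : Config p) : Fin (p.n + 1) × ℕ × Bool × Bool × Bool :=
  (c.state, c.head, c.read 0, c.read 1, c.read 2)

lemma Meas.data {c : (ℕ → Bool) → Config p} (hc : Meas c) :
    Measurable fun x => (c x).data :=
  hc.state.prodMk (hc.head.prodMk ((hc.read 0).prodMk ((hc.read 1).prodMk (hc.read 2))))

/-- The symbols read, from the data. -/
def rd (d : Fin (p.n + 1) × ℕ × Bool × Bool × Bool) : Fin 3 → Bool :=
  ![d.2.2.1, d.2.2.2.1, d.2.2.2.2]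

lemma rd_data (c : Config p) : rd c.data = c.read := by
  funext i
  fin_cases i <;> rfl

lemma Meas.halted {c : (ℕ → Bool) → Config p} (hc : Meas c) :
    MeasurableSet {x | (c x).Halted} := by
  have h : {x | (c x).Halted} = (fun x => (c x).data) ⁻¹' {d | p.trans d.1 (rd d) = none} := by
    ext x
    show p.trans _ _ = none ↔ p.trans _ (rd (c x).data) = none
    rw [rd_data]
    rfl
  rw [h]
  exact hc.data (Set.to_countable _).measurableSet

lemma Meas.step {c : (ℕ → Bool) → Config p} (hc : Meas c) : Meas fun x => (c x).step := by
  -- the new state and head position are functions of the data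
  let F : Fin (p.n + 1) × ℕ × Bool × Bool × Bool → Fin (p.n + 1) := fun d =>
    match p.trans d.1 (rd d) with
    | none => d.1
    | some (q, _, _) => q
  let H : Fin (p.n + 1) × ℕ × Bool × Bool × Bool → ℕ := fun d =>
    match p.trans d.1 (rd d) with
    | none => d.2.1
    | some (_, _, right) => if right then d.2.1 + 1 else d.2.1 - 1
  let W : Fin 3 → ℕ → (Fin (p.n + 1) × ℕ × Bool × Bool × Bool) × Bool → Bool := fun i k d =>
    match p.trans d.1.1 (rd d.1) with
    | none => d.2
    | some (_, w, _) => if k = d.1.2.1 then w i else d.2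
  have hF : ∀ x, ((c x).step).state = F (c x).data := by
    intro x
    simp only [F, rd_data]
    unfold Config.step Config.data
    rcases p.trans (c x).state (c x).read with _ | ⟨q, w, r⟩ <;> simp
  have hH : ∀ x, ((c x).step).head = H (c x).data := by
    intro x
    simp only [H, rd_data]
    unfold Config.step Config.data
    rcases p.trans (c x).state (c x).read with _ | ⟨q, w, r⟩ <;> simp
  have hW : ∀ i k x, ((c x).step).cell i k = W i k ((c x).data, (c x).cell i k) := by
    intro i k x
    simp only [W, rd_data]
    unfold Config.step Config.data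
    rcases p.trans (c x).state (c x).read with _ | ⟨q, w, r⟩ <;>
      simp [Function.update_apply]
  refine Meas.of ?_ ?_ ?_
  · simp only [hF]
    exact (Measurable.of_discrete (f := F)).comp hc.data
  · simp only [hH]
    exact (Measurable.of_discrete (f := H)).comp hc.data
  · intro i k
    simp only [hW]
    exact (Measurable.of_discrete (f := W i k)).comp (hc.data.prodMk (hc.cell i k))

/-- The configuration at a countable stage is a Borel function of the input. -/
theorem meas_run (p : Program) (α : Ordinal.{0}) (hα : α < ω₁) : Meas fun x => run p x α := by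
  induction α using Ordinal.limitRecOn with
  | zero =>
    simp only [run_zero]
    refine Meas.of measurable_const measurable_const fun i k => ?_
    by_cases hi : i = 0
    · simp only [init, hi, if_true]
      exact measurable_pi_apply k
    · simp only [init, hi, if_false]
      exact measurable_const
  | add_one α ih =>
    simp only [run_succ]
    exact (ih ((lt_add_one α).trans hα)).step
  | limit μ hμ ih =>
    intro k
    simp only [co_run_limit p _ hμ]
    exact measurable_limInf hα (fun x γ _ => (run p x γ).co k) fun γ h => ih γ h (h.trans hα) k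

/-- The set of the reals on which a program has halted by a countable stage is Borel. -/
theorem measurableSet_haltsBy (p : Program) {α : Ordinal.{0}} (hα : α < ω₁) :
    MeasurableSet {x | HaltsBy p x α} :=
  (meas_run p α hα).halted

instance : PolishSpace (ℕ → Bool) := by
  let := TopologicalSpace.metrizableSpaceMetric (ℕ → Bool)
  have : CompleteSpace (ℕ → Bool) := complete_of_compact
  infer_instance

/-- An uncountable Borel set contains a copy of the Cantor space. -/
lemma exists_cantor {X : Type*} [TopologicalSpace X] [PolishSpace X] [MeasurableSpace X]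
    [BorelSpace X] {B : Set X} (hB : MeasurableSet B) (hunc : ¬ B.Countable) :
    ∃ f : (ℕ → Bool) → X, Set.range f ⊆ B ∧ Continuous f ∧ Function.Injective f := by
  obtain ⟨t', ht', hpol, hcl, -⟩ := hB.isClopenable
  obtain ⟨f, hf1, hf2, hf3⟩ :=
    @IsClosed.exists_nat_bool_injection_of_not_countable X t' hpol B hcl hunc
  exact ⟨f, hf1, continuous_le_rng ht' hf2, hf3⟩

lemma not_countable_cantor : ¬ Countable (ℕ → Bool) := by
  intro h
  have h3 : Cardinal.mk (ℕ → Bool) ≤ Cardinal.aleph0 := Cardinal.mk_le_aleph0_iff.2 h
  have h4 : Cardinal.mk (ℕ → Bool) = Cardinal.continuum := by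
    rw [← Cardinal.two_power_aleph0, ← Cardinal.mk_bool, ← Cardinal.mk_nat, Cardinal.power_def]
  rw [h4] at h3
  exact not_lt.2 h3 Cardinal.aleph0_lt_continuum

/-- Borel subsets of thin sets are countable. -/
theorem Thin.countable {A B : Set (ℕ → Bool)} (hA : Thin A) (hB : MeasurableSet B) (hBA : B ⊆ A) :
    B.Countable := by
  by_contra hcon
  obtain ⟨f, hf1, hf2, hf3⟩ := exists_cantor hB hcon
  have h1 := hA (Set.range f) (hf1.trans hBA) (isCompact_range hf2).isClosed
  have h2 : Countable (Set.range f) := h1.to_subtype
  exact not_countable_cantor ((Equiv.ofInjective f hf3).countable_iff.2 h2)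

/-- For a semidecidable thin set `A` and a program `p` that semidecides `A`, only countably many
members of `A` are accepted by a given countable stage. -/
theorem countable_haltsBy {A : Set (ℕ → Bool)} (hA : Thin A) (hp : Semidecides p A)
    {α : Ordinal.{0}} (hα : α < ω₁) : {x | HaltsBy p x α}.Countable :=
  hA.countable (measurableSet_haltsBy p hα) fun x hx => (hp x).1 ⟨α, hx⟩

theorem programTime_le {A : Set (ℕ → Bool)} (hp : Semidecides p A) : programTime p A ≤ ω₁ :=
  Ordinal.iSup_le fun x => (haltingTime_lt ((hp x).2 x.2)).le

theorem haltingTime_le_programTime {A : Set (ℕ → Bool)} {x : ℕ → Bool} (hx : x ∈ A) :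
    haltingTime p x ≤ programTime p A :=
  Ordinal.le_iSup (fun x : A => haltingTime p x) ⟨x, hx⟩

/-- A countable semidecidable set has a countable semidecision time, for every program. -/
theorem programTime_lt_of_countable {A : Set (ℕ → Bool)} (hp : Semidecides p A)
    (hA : A.Countable) : programTime p A < ω₁ := by
  have : Countable A := hA.to_subtype
  exact Ordinal.iSup_lt_omega_one fun x => haltingTime_lt ((hp x).2 x.2)

/-- A thin set with a countable semidecision time for some program is countable. -/
theorem countable_of_programTime_lt {A : Set (ℕ → Bool)} (hA : Thin A) (hp : Semidecides p A)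
    (h : programTime p A < ω₁) : A.Countable := by
  refine (countable_haltsBy hA hp h).mono fun x hx => ?_
  exact haltsBy_mono (haltingTime_le_programTime hx) (haltsBy_haltingTime ((hp x).2 hx))

/-- For every program that semidecides a thin set: the semidecision time of the program is the
first uncountable ordinal if and only if the set is uncountable. -/
theorem programTime_eq_iff {A : Set (ℕ → Bool)} (hA : Thin A) (hp : Semidecides p A) :
    programTime p A = ω₁ ↔ ¬ A.Countable := by
  constructor
  · intro h hc
    exact (programTime_lt_of_countable hp hc).ne h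
  · intro h
    refine (programTime_le hp).antisymm (not_lt.1 fun h1 => h (countable_of_programTime_lt hA hp h1))

theorem semidecisionTime_eq_iff {A : Set (ℕ → Bool)} (hA : Thin A) (hs : Semidecidable A) :
    semidecisionTime A = ω₁ ↔ ¬ A.Countable := by
  have hne : {t | ∃ p, Semidecides p A ∧ t = programTime p A}.Nonempty := by
    obtain ⟨p, hp⟩ := hs
    exact ⟨_, p, hp, rfl⟩
  obtain ⟨p, hp, hp'⟩ := csInf_mem hne
  have h : semidecisionTime A = programTime p A := hp'
  rw [h]
  exact programTime_eq_iff hA hp

theorem semidecisionTime_lt_iff {A : Set (ℕ → Bool)} (hA : Thin A) (hs : Semidecidable A) :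
    semidecisionTime A < ω₁ ↔ A.Countable := by
  have hne : {t | ∃ p, Semidecides p A ∧ t = programTime p A}.Nonempty := by
    obtain ⟨p, hp⟩ := hs
    exact ⟨_, p, hp, rfl⟩
  obtain ⟨p, hp, hp'⟩ := csInf_mem hne
  have h : semidecisionTime A = programTime p A := hp'
  rw [h]
  exact ⟨countable_of_programTime_lt hA hp, programTime_lt_of_countable hp⟩

end Pool.Agent.H76.ITTM
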